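import Pool.Agent.H31.DP.Targets

/-!
Module CM of the project DP (distant pairs, twisted correlations) on `MP_c59857_nt`.
-/

set_option autoImplicit false

open Finset Filter Topology

namespace Pool.Agent.H79.DP

open Pool.Agent.H31.DP
open Pool.Agent.H24.T2 (Pset box cub)

theorem dl_smul (θ : ℝ) : ∀ (n : ℕ) (t : Fin n → ℤ) (φ : ℤ → ℝ) (p : ℤ),
    dl n t (fun x => θ * φ x) p = θ * dl n t φ p := by
  intro n
  induction n with
  | zero => intro t φ p; rfl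
  | succ n ih =>
    intro t φ p
    have h : (fun x => θ * φ x - θ * φ (x + t 0)) = fun x => θ * (φ x - φ (x + t 0)) := by
      funext x; ring
    show dl n (Fin.tail t) (fun x => θ * φ x - θ * φ (x + t 0)) p =
      θ * dl n (Fin.tail t) (fun x => φ x - φ (x + t 0)) p
    rw [h]
    exact ih _ _ _

theorem norm_ee (x : ℝ) : ‖ee x‖ = 1 := by
  unfold ee
  rw [show (2 * (Real.pi : ℂ) * Complex.I * (x : ℂ)) = ((2 * Real.pi * x : ℝ) : ℂ) * Complex.I by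
    push_cast; ring]
  exact Complex.norm_exp_ofReal_mul_I _

theorem card_mul_le (Q M : ℕ) (hQ : 0 < Q) (h : Q ≤ M) : ((mul Q M).card : ℝ) ≤ 3 * M / Q := by
  have h1 : (mul Q M).card ≤ (Finset.Icc (-((M / Q : ℕ) : ℤ)) ((M / Q : ℕ) : ℤ)).card := by
    refine Finset.card_le_card_of_injOn (fun s => s / (Q : ℤ)) ?_ ?_
    · intro s hs
      rw [Finset.mem_coe] at hs
      unfold mul at hs
      rw [Finset.mem_filter, Finset.mem_Icc] at hs
      obtain ⟨⟨h1, h2⟩, k, rfl⟩ := hs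
      have hQ' : (0 : ℤ) < Q := by exact_mod_cast hQ
      have h3 : ((Q : ℤ) * k) / (Q : ℤ) = k := Int.mul_ediv_cancel_left k hQ'.ne'
      rw [Finset.mem_coe, Finset.mem_Icc]
      simp only [h3]
      have h4 : ((M / Q : ℕ) : ℤ) = (M : ℤ) / Q := by simp
      rw [h4]
      constructor
      · have : -k ≤ (M : ℤ) / Q := by
          rw [Int.le_ediv_iff_mul_le hQ']
          nlinarith
        linarith
      · rw [Int.le_ediv_iff_mul_le hQ']
        nlinarith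
    · intro s hs s' hs' hss
      rw [Finset.mem_coe] at hs hs'
      unfold mul at hs hs'
      rw [Finset.mem_filter] at hs hs'
      obtain ⟨-, k, rfl⟩ := hs
      obtain ⟨-, k', rfl⟩ := hs'
      have hQ' : (0 : ℤ) < Q := by exact_mod_cast hQ
      have h3 : ((Q : ℤ) * k) / (Q : ℤ) = k := Int.mul_ediv_cancel_left k hQ'.ne'
      have h4 : ((Q : ℤ) * k') / (Q : ℤ) = k' := Int.mul_ediv_cancel_left k' hQ'.ne'
      simp only [h3, h4] at hss
      rw [hss]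
  have h2 : (Finset.Icc (-((M / Q : ℕ) : ℤ)) ((M / Q : ℕ) : ℤ)).card = 2 * (M / Q) + 1 := by
    rw [Int.card_Icc]; omega
  rw [h2] at h1
  have h3 : 1 ≤ M / Q := (Nat.one_le_div_iff hQ).2 h
  have h4 : (mul Q M).card ≤ 3 * (M / Q) := by omega
  have h5 : ((M / Q : ℕ) : ℝ) ≤ (M : ℝ) / Q := Nat.cast_div_le
  have h6 : ((mul Q M).card : ℝ) ≤ 3 * ((M / Q : ℕ) : ℝ) := by exact_mod_cast h4
  calc ((mul Q M).card : ℝ) ≤ 3 * ((M / Q : ℕ) : ℝ) := h6
    _ ≤ 3 * ((M : ℝ) / Q) := by linarith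
    _ = 3 * M / Q := by ring

/-- The sum of the twisted sums of correlations. -/
theorem sum_RC {l : ℕ} (h : Fin l → ℕ) (A : Finset ℕ) (Q M : ℕ) (θ c : ℝ)
    (hlow : ∀ p ∈ A, c * (M : ℝ) ^ 2 ≤ Q * (RC h p Q M θ).re) :
    c * A.card * (M : ℝ) ^ 2 ≤
      Q * ∑ s ∈ mul Q M, ‖∑ p ∈ A, ee (s * (θ / p)) * ((CA h p M s : ℝ) : ℂ)‖ := by
  have h1 : ∑ p ∈ A, c * (M : ℝ) ^ 2 ≤ ∑ p ∈ A, Q * (RC h p Q M θ).re := Finset.sum_le_sum hlow
  rw [Finset.sum_const, nsmul_eq_mul, ← Finset.mul_sum, ← Complex.re_sum] at h1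
  have h2 : ∑ p ∈ A, RC h p Q M θ =
      ∑ s ∈ mul Q M, ∑ p ∈ A, ee (s * (θ / p)) * ((CA h p M s : ℝ) : ℂ) := by
    unfold RC
    exact Finset.sum_comm
  rw [h2] at h1
  have h3 : (∑ s ∈ mul Q M, ∑ p ∈ A, ee (s * (θ / p)) * ((CA h p M s : ℝ) : ℂ)).re ≤
      ∑ s ∈ mul Q M, ‖∑ p ∈ A, ee (s * (θ / p)) * ((CA h p M s : ℝ) : ℂ)‖ :=
    (Complex.re_le_norm _).trans (norm_sum_le _ _)
  have h4 := mul_le_mul_of_nonneg_left h3 (Nat.cast_nonneg Q : (0 : ℝ) ≤ Q)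
  linarith

/-- The sum of the cube counts over the multiples of `Q`. -/
theorem sum_Uc (hCU : StatementCU) (hDG : StatementDG) (hND : StatementND) (hGS : StatementGS)
    (n X Q M K Bm : ℕ) (A : Finset ℕ) (θ τ : ℝ) (hn : 0 < n) (hQ : 0 < Q) (hQM : Q ≤ M)
    (hK0 : 0 < K) (hA : ∀ p ∈ A, 0 < p ∧ p ≤ Bm) (hmin : Minor K M θ)
    (hKa : Q * (2 ^ n * Bm ^ (2 ^ n)) ≤ K) (hKb : (Bm : ℝ) ^ (2 ^ n) * Q ≤ τ * K) :
    ∑ s ∈ mul Q M, (Uc X n (A.map Nat.castEmbedding) (fun p => ee (s * (θ / p)))).re ≤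
      (M / Q : ℝ) * (A.card * (2 * X + 1) ^ (n - 1) * (3 * n + τ * (2 * X + 1))) := by
  classical
  set A' : Finset ℤ := A.map Nat.castEmbedding with hA'
  have hcard : A'.card = A.card := Finset.card_map _
  have hmem : ∀ a ∈ A', 0 < a ∧ a ≤ (Bm : ℤ) := by
    intro a ha
    rw [hA', Finset.mem_map] at ha
    obtain ⟨p, hp, rfl⟩ := ha
    have := hA p hp
    simp only [Nat.castEmbedding_apply]
    exact ⟨by exact_mod_cast this.1, by exact_mod_cast this.2⟩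
  have h1 : ∀ s : ℤ, Uc X n A' (fun p => ee (s * (θ / p))) =
      ∑ t ∈ box n X, ∑ p ∈ cub n A' t, ee (s * dl n t (fun x => θ / (x : ℝ)) p) := by
    intro s
    exact hCU X n A' (fun x => θ / (x : ℝ)) (s : ℝ)
  have h2 : ∑ s ∈ mul Q M, (Uc X n A' (fun p => ee (s * (θ / p)))).re =
      (∑ t ∈ box n X, ∑ p ∈ cub n A' t,
        ∑ s ∈ mul Q M, ee (s * dl n t (fun x => θ / (x : ℝ)) p)).re := by
    rw [← Complex.re_sum]
    congr 1
    rw [Finset.sum_congr rfl fun s _ => h1 s, Finset.sum_comm]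
    refine Finset.sum_congr rfl fun t _ => ?_
    exact Finset.sum_comm
  have hdl : ∀ (t : Fin n → ℤ) (p : ℤ), dl n t (fun x => θ / (x : ℝ)) p =
      θ * dl n t (fun x => 1 / (x : ℝ)) p := by
    intro t p
    rw [← dl_smul]
    congr 1
    funext x
    ring
  have hMQ : (0 : ℝ) ≤ (M : ℝ) / Q := by positivity
  have hK' : (0 : ℝ) < K := by exact_mod_cast hK0
  have hQ' : (0 : ℝ) < Q := by exact_mod_cast hQ
  -- every term
  have hterm : ∀ t ∈ box n X, ∀ p ∈ cub n A' t,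
      ‖∑ s ∈ mul Q M, ee (s * dl n t (fun x => θ / (x : ℝ)) p)‖ ≤
        (M / Q : ℝ) * ((if ∃ i, t i = 0 then 3 else 0) + τ) := by
    intro t _ p hp
    have hτ0 : 0 ≤ τ := by
      by_contra hneg
      push Not at hneg
      have : τ * K < 0 := mul_neg_of_neg_of_pos hneg hK'
      have h0 : (0 : ℝ) ≤ (Bm : ℝ) ^ (2 ^ n) * Q := by positivity
      linarith
    by_cases ht : ∃ i, t i = 0
    · rw [if_pos ht]
      calc ‖∑ s ∈ mul Q M, ee (s * dl n t (fun x => θ / (x : ℝ)) p)‖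
          ≤ ∑ s ∈ mul Q M, ‖ee (s * dl n t (fun x => θ / (x : ℝ)) p)‖ := norm_sum_le _ _
        _ = (mul Q M).card := by simp [norm_ee]
        _ ≤ 3 * M / Q := card_mul_le Q M hQ hQM
        _ ≤ (M / Q : ℝ) * (3 + τ) := by
          have : 0 ≤ (M / Q : ℝ) * τ := mul_nonneg hMQ hτ0
          have h3 : (3 * M / Q : ℝ) = (M / Q : ℝ) * 3 := by ring
          rw [h3, mul_add]; linarith
    · rw [if_neg ht]
      push Not at ht
      obtain ⟨a, b, ha, hb, hbB, haB, hab⟩ := hND n Bm A' t p hmem ht hp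
      have h3 : ∑ s ∈ mul Q M, ee (s * dl n t (fun x => θ / (x : ℝ)) p) =
          ∑ s ∈ mul Q M, ee (s * (θ * ((a : ℝ) / b))) := by
        refine Finset.sum_congr rfl fun s _ => ?_
        rw [hdl, hab]
      rw [h3]
      have hKa' : (Q : ℤ) * |a| ≤ (K : ℤ) := by
        have : (Q : ℤ) * |a| ≤ (Q : ℤ) * (2 ^ n * (Bm : ℤ) ^ (2 ^ n)) :=
          mul_le_mul_of_nonneg_left haB (by positivity)
        refine this.trans ?_
        exact_mod_cast hKa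
      refine (hGS K M Q b a θ hmin ha hb hQ hK0 hKa').trans ?_
      have hb' : (b : ℝ) ≤ (Bm : ℝ) ^ (2 ^ n) := by exact_mod_cast hbB
      rw [zero_add, div_le_iff₀ hK']
      have h4 : (b : ℝ) * Q ≤ τ * K := (mul_le_mul_of_nonneg_right hb' hQ'.le).trans hKb
      have h5 : (M / Q : ℝ) * τ * K = (M / Q : ℝ) * (τ * K) := by ring
      rw [h5]
      calc (b : ℝ) * M = (M / Q : ℝ) * (b * Q) := by field_simp
        _ ≤ (M / Q : ℝ) * (τ * K) := mul_le_mul_of_nonneg_left h4 hMQ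
  rw [h2]
  calc (∑ t ∈ box n X, ∑ p ∈ cub n A' t,
        ∑ s ∈ mul Q M, ee (s * dl n t (fun x => θ / (x : ℝ)) p)).re
      ≤ ‖∑ t ∈ box n X, ∑ p ∈ cub n A' t,
        ∑ s ∈ mul Q M, ee (s * dl n t (fun x => θ / (x : ℝ)) p)‖ := Complex.re_le_norm _
    _ ≤ ∑ t ∈ box n X, ∑ p ∈ cub n A' t,
        ‖∑ s ∈ mul Q M, ee (s * dl n t (fun x => θ / (x : ℝ)) p)‖ :=
      (norm_sum_le _ _).trans (Finset.sum_le_sum fun t _ => norm_sum_le _ _)
    _ ≤ ∑ t ∈ box n X, ∑ p ∈ cub n A' t, (M / Q : ℝ) * ((if ∃ i, t i = 0 then 3 else 0) + τ) :=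
      Finset.sum_le_sum fun t ht => Finset.sum_le_sum fun p hp => hterm t ht p hp
    _ = (M / Q : ℝ) * (3 * ∑ t ∈ (box n X).filter (fun t => ∃ i, t i = 0), ((cub n A' t).card : ℝ) +
        τ * ∑ t ∈ box n X, ((cub n A' t).card : ℝ)) := by
      rw [Finset.sum_filter, Finset.mul_sum, Finset.mul_sum, ← Finset.sum_add_distrib,
        Finset.mul_sum]
      refine Finset.sum_congr rfl fun t _ => ?_
      rw [Finset.sum_const, nsmul_eq_mul]
      split_ifs <;> ring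
    _ ≤ (M / Q : ℝ) * (A.card * (2 * X + 1) ^ (n - 1) * (3 * n + τ * (2 * X + 1))) := by
      refine mul_le_mul_of_nonneg_left ?_ hMQ
      obtain ⟨hD1, hD2⟩ := hDG X n A' hn
      rw [hcard] at hD1 hD2
      have hτ0 : 0 ≤ τ := by
        by_contra hneg
        push Not at hneg
        have : τ * K < 0 := mul_neg_of_neg_of_pos hneg hK'
        have h0 : (0 : ℝ) ≤ (Bm : ℝ) ^ (2 ^ n) * Q := by positivity
        linarith
      have h6 := mul_le_mul_of_nonneg_left hD1 hτ0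
      have h7 : ((2 * X + 1 : ℝ)) ^ n = (2 * X + 1) ^ (n - 1) * (2 * X + 1) := by
        rw [← pow_succ, Nat.sub_add_cancel hn]
      rw [h7] at h6
      have h8 := mul_le_mul_of_nonneg_left hD2 (show (0 : ℝ) ≤ 3 by norm_num)
      calc _ ≤ 3 * ((n : ℝ) * A.card * (2 * X + 1) ^ (n - 1)) +
            τ * (A.card * ((2 * X + 1) ^ (n - 1) * (2 * X + 1))) := add_le_add h8 h6
        _ = _ := by ring

theorem pf_CM (hCT : StatementCT) (hCU : StatementCU) (hDG : StatementDG) (hND : StatementND)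
    (hGS : StatementGS) : StatementCM := by
  intro l h c τ A X Q hc hτ hQ hA hX
  set n := l + 1 with hn
  set D := 2 ^ n with hD
  set Bm := A.sup id with hBm
  set B := ∑ i, Bm * h i with hB
  refine ⟨Q + B + 1 + Q * (2 ^ n * Bm ^ D) + ⌈(Bm : ℝ) ^ D * Q / τ⌉₊, fun M hKM θ hmin hlow => ?_⟩
  set K := Q + B + 1 + Q * (2 ^ n * Bm ^ D) + ⌈(Bm : ℝ) ^ D * Q / τ⌉₊ with hK
  have hQM : Q ≤ M := by omega
  have hBM : B ≤ M := by omega
  have hM0 : 0 < M := by omega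
  have hK0 : 0 < K := by omega
  have hABm : ∀ p ∈ A, 0 < p ∧ p ≤ Bm := fun p hp => ⟨hA p hp, Finset.le_sup (f := id) hp⟩
  have hKb : (Bm : ℝ) ^ D * Q ≤ τ * K := by
    have h1 : (Bm : ℝ) ^ D * Q / τ ≤ K := by
      refine (Nat.le_ceil _).trans ?_
      exact_mod_cast (by omega : ⌈(Bm : ℝ) ^ D * Q / τ⌉₊ ≤ K)
    rw [div_le_iff₀ hτ] at h1
    linarith
  have hKa : Q * (2 ^ n * Bm ^ D) ≤ K := by omega
  have hS := sum_Uc hCU hDG hND hGS n X Q M K Bm A θ τ (by omega) hQ hQM hK0 hABm hmin hKa hKb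
  have hR := sum_RC h A Q M θ c hlow
  set E : ℤ → ℝ := fun s => ‖∑ p ∈ A, ee (s * (θ / p)) * ((CA h p M s : ℝ) : ℂ)‖ with hE
  have hE0 : ∀ s, 0 ≤ E s := fun s => norm_nonneg _
  have hM' : (0 : ℝ) < M := by exact_mod_cast hM0
  have hQ' : (0 : ℝ) < Q := by exact_mod_cast hQ
  have hD1 : 1 ≤ D := Nat.one_le_two_pow
  -- the von Neumann inequality for each s
  have hCTs : ∀ s ∈ mul Q M, E s ^ D ≤ (2 * M : ℝ) ^ D * (2 * X + 1) ^ (D - (l + 2)) *
      (Uc X n (A.map Nat.castEmbedding) (fun p => ee (s * (θ / p)))).re := by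
    intro s _
    have h1 := hCT l h A B X M s θ (fun p hp i => by
      calc p * h i ≤ Bm * h i := Nat.mul_le_mul_right _ (hABm p hp).2
        _ ≤ B := Finset.single_le_sum (f := fun i => Bm * h i) (fun _ _ => Nat.zero_le _)
          (Finset.mem_univ i)) hX
    have h2 : 0 ≤ (Uc X n (A.map Nat.castEmbedding) (fun p => ee (s * (θ / p)))).re ∨
        (Uc X n (A.map Nat.castEmbedding) (fun p => ee (s * (θ / p)))).re < 0 := le_or_gt _ _
    have hMB : (M : ℝ) + B ≤ 2 * M := by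
      have : (B : ℝ) ≤ M := by exact_mod_cast hBM
      linarith
    rcases h2 with h2 | h2
    · refine h1.trans ?_
      refine mul_le_mul_of_nonneg_right ?_ h2
      refine mul_le_mul_of_nonneg_right ?_ (by positivity)
      exact pow_le_pow_left₀ (by positivity) hMB _
    · exfalso
      have h3 : ((M : ℝ) + B) ^ (2 ^ (l + 1)) * (2 * X + 1) ^ (2 ^ (l + 1) - (l + 2)) *
          (Uc X (l + 1) (A.map Nat.castEmbedding) (fun p => ee (s * (θ / p)))).re < 0 :=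
        mul_neg_of_pos_of_neg (by positivity) h2
      have h4 : 0 ≤ E s ^ D := pow_nonneg (hE0 s) _
      exact absurd (h4.trans h1) (not_le.2 h3)
  have hsumD : ∑ s ∈ mul Q M, E s ^ D ≤ (2 * M : ℝ) ^ D * (2 * X + 1) ^ (D - (l + 2)) *
      ((M / Q : ℝ) * (A.card * (2 * X + 1) ^ (n - 1) * (3 * n + τ * (2 * X + 1)))) := by
    refine (Finset.sum_le_sum hCTs).trans ?_
    rw [← Finset.mul_sum]
    exact mul_le_mul_of_nonneg_left hS (by positivity)
  have hD' : D - 1 + 1 = D := Nat.sub_add_cancel hD1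
  have hcard := card_mul_le Q M hQ hQM
  have hsum0 : 0 ≤ ∑ s ∈ mul Q M, E s ^ D := Finset.sum_nonneg fun s _ => pow_nonneg (hE0 s) _
  have hmean : (∑ s ∈ mul Q M, E s) ^ D ≤ (3 * M / Q : ℝ) ^ (D - 1) * ∑ s ∈ mul Q M, E s ^ D := by
    have h1 := pow_sum_le_card_mul_sum_pow (s := mul Q M) (f := E) (fun s _ => hE0 s) (D - 1)
    rw [hD'] at h1
    refine h1.trans (mul_le_mul_of_nonneg_right ?_ hsum0)
    exact pow_le_pow_left₀ (Nat.cast_nonneg _) hcard _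
  have hlD : l + 2 ≤ D := by
    have h1 : n + 1 ≤ 2 ^ n := Nat.lt_two_pow_self
    omega
  -- the power of the lower bound
  have hpow : (c * A.card * (M : ℝ) ^ 2) ^ D ≤ (Q * ∑ s ∈ mul Q M, E s) ^ D :=
    pow_le_pow_left₀ (by positivity) hR _
  rw [mul_pow (Q : ℝ)] at hpow
  set Y : ℝ := A.card * (3 * n + τ * (2 * X + 1)) with hY
  set W : ℝ := 2 * X + 1 with hW
  have hW1 : 0 < W := by positivity
  have hQD : (Q : ℝ) ^ D = Q ^ (D - 1) * Q := by rw [← pow_succ, hD']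
  have h3D : (3 : ℝ) ^ (D - 1) ≤ 3 ^ D := pow_le_pow_right₀ (by norm_num) (Nat.sub_le _ _)
  have hMD : (M : ℝ) ^ D = M ^ (D - 1) * M := by rw [← pow_succ, hD']
  have hWe : W ^ (D - (l + 2)) * W ^ (n - 1) = W ^ (D - 2) := by
    rw [← pow_add]; congr 1; omega
  have hbig : (c * A.card * (M : ℝ) ^ 2) ^ D ≤
      3 ^ (D - 1) * 2 ^ D * ((M : ℝ) ^ D * (M : ℝ) ^ D) * W ^ (D - 2) * Y := by
    have h1 : (Q : ℝ) ^ D * (∑ s ∈ mul Q M, E s) ^ D ≤
        (Q : ℝ) ^ D * ((3 * M / Q : ℝ) ^ (D - 1) * ((2 * M : ℝ) ^ D * W ^ (D - (l + 2)) *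
      ((M / Q : ℝ) * (A.card * W ^ (n - 1) * (3 * n + τ * W))))) :=
      mul_le_mul_of_nonneg_left (hmean.trans (mul_le_mul_of_nonneg_left hsumD (by positivity)))
        (by positivity)
    refine hpow.trans (h1.trans (le_of_eq ?_))
    have h2 : (Q : ℝ) ^ (D - 1) * (3 * M / Q : ℝ) ^ (D - 1) = 3 ^ (D - 1) * M ^ (D - 1) := by
      rw [← mul_pow, ← mul_pow]; congr 1; field_simp
    calc (Q : ℝ) ^ D * ((3 * M / Q : ℝ) ^ (D - 1) * ((2 * M : ℝ) ^ D * W ^ (D - (l + 2)) *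
          ((M / Q : ℝ) * (A.card * W ^ (n - 1) * (3 * n + τ * W)))))
        = ((Q : ℝ) ^ (D - 1) * (3 * M / Q : ℝ) ^ (D - 1)) * (Q * (M / Q : ℝ)) *
          ((2 : ℝ) ^ D * M ^ D) * (W ^ (D - (l + 2)) * W ^ (n - 1)) * Y := by
          rw [hQD, mul_pow 2 (M : ℝ)]; ring
      _ = (3 ^ (D - 1) * M ^ (D - 1)) * (M : ℝ) * ((2 : ℝ) ^ D * M ^ D) * W ^ (D - 2) * Y := by
          rw [h2, hWe, mul_div_cancel₀ _ hQ'.ne']
      _ = _ := by rw [hMD]; ring
  have hM2 : ((M : ℝ) ^ 2) ^ D = (M : ℝ) ^ D * (M : ℝ) ^ D := by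
    rw [← mul_pow]; congr 1; ring
  have hMM : 0 < (M : ℝ) ^ D * (M : ℝ) ^ D := by positivity
  rw [mul_pow, hM2] at hbig
  have hY0 : 0 ≤ Y := by positivity
  have hfin : (c * A.card) ^ D ≤ 3 ^ (D - 1) * 2 ^ D * W ^ (D - 2) * Y := by
    refine le_of_mul_le_mul_right ?_ hMM
    calc (c * A.card) ^ D * ((M : ℝ) ^ D * (M : ℝ) ^ D) ≤
        3 ^ (D - 1) * 2 ^ D * ((M : ℝ) ^ D * (M : ℝ) ^ D) * W ^ (D - 2) * Y := hbig
      _ = _ := by ring
  refine hfin.trans ?_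
  have h6 : (6 : ℝ) ^ D = 3 ^ D * 2 ^ D := by rw [← mul_pow]; norm_num
  calc 3 ^ (D - 1) * 2 ^ D * W ^ (D - 2) * Y ≤ 3 ^ D * 2 ^ D * W ^ (D - 2) * Y := by gcongr
    _ = 6 ^ D * A.card * W ^ (D - 2) * (3 * ((l : ℝ) + 1) + τ * W) := by
      rw [h6, hY, hn]; push_cast; ring

end Pool.Agent.H79.DP
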