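import Pool.Agent.H31.DP.Targets
import Pool.Agent.H91.LF.Basic

/-!
Module CT of the project DP (distant pairs, twisted correlations) on `MP_c59857_nt`.
-/

set_option autoImplicit false

open Finset Filter Topology

namespace Pool.Agent.H79.DP

open Pool.Agent.H31.DP
open Pool.Agent.H91.LF (lz abs_lz_le)
open Pool.Agent.H24.T2 (Pset box cub)

/-- The functions of the generalised von Neumann inequality. -/
noncomputable def GG (l m M : ℕ) (s : ℤ) : Fin (l + 1) → ZMod m → ℂ :=
  Fin.cons (fun z => if (z.val : ℤ) ∈ IM M s then 1 else 0)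
    (fun _ z => if 1 ≤ z.val then ((lz (z.val : ℤ) * lz ((z.val : ℤ) + s) : ℝ) : ℂ) else 0)

/-- The directions. -/
def hh {l : ℕ} (m : ℕ) (h : Fin l → ℕ) : Fin (l + 1) → ZMod m :=
  Fin.cons 0 (fun i => (h i : ZMod m))

theorem GG_norm (l m M : ℕ) (s : ℤ) (i : Fin (l + 1)) (z : ZMod m) : ‖GG l m M s i z‖ ≤ 1 := by
  refine Fin.cases ?_ (fun i => ?_) i
  · simp only [GG, Fin.cons_zero]
    split_ifs <;> simp
  · simp only [GG, Fin.cons_succ]
    split_ifs
    · rw [Complex.norm_real, Real.norm_eq_abs, abs_mul]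
      exact mul_le_one₀ (abs_lz_le _) (abs_nonneg _) (abs_lz_le _)
    · simp

theorem GG_zero (l m M : ℕ) (s : ℤ) (i : Fin (l + 1)) (z : ZMod m) (hz : ¬ 1 ≤ z.val) :
    GG l m M s i z = 0 := by
  refine Fin.cases ?_ (fun i => ?_) i
  · simp only [GG, Fin.cons_zero]
    rw [if_neg]
    intro h
    unfold IM at h
    rw [Finset.mem_filter, Finset.mem_Icc] at h
    exact hz (by exact_mod_cast h.1.1)
  · simp only [GG, Fin.cons_succ]
    rw [if_neg hz]

theorem sum_GG {l : ℕ} (h : Fin l → ℕ) (B M p : ℕ) (s : ℤ) (hp : ∀ i, p * h i ≤ B) :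
    ∑ y : ZMod (M + B + 1), ∏ i, GG l (M + B + 1) M s i (y + (p : ℤ) • hh (M + B + 1) h i) =
      ((CA h p M s : ℝ) : ℂ) := by
  classical
  have hIM : ∀ v ∈ IM M s, 1 ≤ v ∧ v ≤ M := by
    intro v hv
    unfold IM at hv
    rw [Finset.mem_filter, Finset.mem_Icc] at hv
    exact hv.1
  have h1 : ∀ y : ZMod (M + B + 1),
      ∏ i, GG l (M + B + 1) M s i (y + (p : ℤ) • hh (M + B + 1) h i) =
        if ((y.val : ℕ) : ℤ) ∈ IM M s then
          ((FF h p (y.val : ℤ) * FF h p ((y.val : ℤ) + s) : ℝ) : ℂ) else 0 := by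
    intro y
    rw [Fin.prod_univ_succ]
    have h0 : GG l (M + B + 1) M s 0 (y + (p : ℤ) • hh (M + B + 1) h 0) =
        if ((y.val : ℕ) : ℤ) ∈ IM M s then 1 else 0 := by
      simp [GG, hh]
    rw [h0]
    split_ifs with hy
    · obtain ⟨hy1, hy2⟩ := hIM _ hy
      have hy1' : 1 ≤ y.val := by exact_mod_cast hy1
      have hy2' : y.val ≤ M := by exact_mod_cast hy2
      rw [one_mul]
      have h2 : ∀ i : Fin l, GG l (M + B + 1) M s i.succ
          (y + (p : ℤ) • hh (M + B + 1) h i.succ) =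
          ((lz ((y.val : ℤ) + (p : ℤ) * (h i : ℤ)) *
            lz ((y.val : ℤ) + s + (p : ℤ) * (h i : ℤ)) : ℝ) : ℂ) := by
        intro i
        have h3 : (y + (p : ℤ) • hh (M + B + 1) h i.succ).val = y.val + p * h i := by
          have h4 : y + (p : ℤ) • hh (M + B + 1) h i.succ =
              ((y.val + p * h i : ℕ) : ZMod (M + B + 1)) := by
            simp only [hh, Fin.cons_succ]
            push_cast
            rw [ZMod.natCast_zmod_val]
            simp
          rw [h4, ZMod.val_natCast, Nat.mod_eq_of_lt]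
          have := hp i
          omega
        simp only [GG, Fin.cons_succ]
        rw [h3, if_pos (by omega)]
        push_cast
        congr 3
        ring
      rw [Finset.prod_congr rfl fun i _ => h2 i]
      unfold FF
      rw [← Complex.ofReal_prod, Finset.prod_mul_distrib]
    · rw [zero_mul]
  rw [Finset.sum_congr rfl fun y _ => h1 y, ← Finset.sum_filter]
  unfold CA
  push_cast
  refine Finset.sum_bij' (fun y _ => ((y.val : ℕ) : ℤ)) (fun v _ => ((v : ℤ) : ZMod (M + B + 1)))
    ?_ ?_ ?_ ?_ ?_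
  · intro y hy
    exact (Finset.mem_filter.1 hy).2
  · intro v hv
    obtain ⟨hv1, hv2⟩ := hIM v hv
    rw [Finset.mem_filter]
    refine ⟨Finset.mem_univ _, ?_⟩
    obtain ⟨k, rfl⟩ := Int.eq_ofNat_of_zero_le (by omega : 0 ≤ v)
    have h5 : (((k : ℕ) : ℤ) : ZMod (M + B + 1)).val = k := by
      rw [Int.cast_natCast, ZMod.val_natCast, Nat.mod_eq_of_lt]
      have : k ≤ M := by exact_mod_cast hv2
      omega
    rw [h5]
    exact hv
  · intro y _
    simp
  · intro v hv
    obtain ⟨hv1, hv2⟩ := hIM v hv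
    obtain ⟨k, rfl⟩ := Int.eq_ofNat_of_zero_le (by omega : 0 ≤ v)
    have h5 : (((k : ℕ) : ℤ) : ZMod (M + B + 1)).val = k := by
      rw [Int.cast_natCast, ZMod.val_natCast, Nat.mod_eq_of_lt]
      have : k ≤ M := by exact_mod_cast hv2
      omega
    simp only [h5]
  · intro y _
    rfl

theorem pf_CT (hGV : StatementGV) : StatementCT := by
  classical
  intro l h A B X M s θ hB hX
  have h1 := hGV (ZMod (M + B + 1)) l (M + B) X
    (Finset.univ.filter fun z : ZMod (M + B + 1) => 1 ≤ z.val)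
    (GG l (M + B + 1) M s) (hh (M + B + 1) h) (A.map Nat.castEmbedding)
    (fun p => ee (s * (θ / p))) ?_ (GG_norm _ _ _ _) ?_ ?_
  · rw [Finset.sum_map] at h1
    have h2 : ∑ p ∈ A, ee (s * (θ / p)) * ((CA h p M s : ℝ) : ℂ) =
        ∑ p ∈ A, ee (s * (θ / ((Nat.castEmbedding p : ℤ) : ℝ))) *
          ∑ y : ZMod (M + B + 1), ∏ i, GG l (M + B + 1) M s i
            (y + (Nat.castEmbedding p : ℤ) • hh (M + B + 1) h i) := by
      refine Finset.sum_congr rfl fun p hp => ?_
      rw [Nat.castEmbedding_apply, sum_GG h B M p s (hB p hp)]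
      simp
    rw [h2]
    refine h1.trans (le_of_eq ?_)
    push_cast
    rfl
  · have h3 : (Finset.univ.filter fun z : ZMod (M + B + 1) => 1 ≤ z.val) ⊆
        Finset.univ.erase 0 := by
      intro z hz
      rw [Finset.mem_erase]
      refine ⟨?_, Finset.mem_univ _⟩
      rintro rfl
      simp at hz
    refine (Finset.card_le_card h3).trans ?_
    rw [Finset.card_erase_of_mem (Finset.mem_univ _), Finset.card_univ, ZMod.card]
    omega
  · intro i z hz
    refine GG_zero _ _ _ _ _ _ fun h4 => hz ?_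
    rw [Finset.mem_filter]
    exact ⟨Finset.mem_univ _, h4⟩
  · intro p hp q hq
    rw [Finset.mem_map] at hp hq
    obtain ⟨p, hp, rfl⟩ := hp
    obtain ⟨q, hq, rfl⟩ := hq
    exact hX p hp q hq

end Pool.Agent.H79.DP
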